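import Pool.Agent.H37.CV.Targets

/-!
# (GB) bounds for the Gamma factors
-/

set_option autoImplicit false

open Complex Filter Topology MeasureTheory

namespace Pool.Agent.H34.CV

open Pool.Agent.H37.CV Pool.Agent.H28.RC Pool.Agent.H25.HK

theorem norm_Gamma_le_re {s : ℂ} (hs : 0 < s.re) : ‖Gamma s‖ ≤ Real.Gamma s.re := by
  rw [Complex.Gamma_eq_integral hs, Real.Gamma_eq_integral hs, Complex.GammaIntegral]
  refine (norm_integral_le_integral_norm _).trans (le_of_eq ?_)
  refine setIntegral_congr_fun measurableSet_Ioi fun x hx => ?_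
  have hx' : 0 < x := hx
  rw [norm_mul, Complex.norm_cpow_eq_rpow_re_of_pos hx', Complex.norm_real,
    Real.norm_of_nonneg (Real.exp_pos _).le]
  simp

theorem two_pi_cast : (2 * (Real.pi : ℂ)) = ((2 * Real.pi : ℝ) : ℂ) := by push_cast; rfl

theorem norm_Gc (w : ℂ) : ‖Gammaℂ w‖ = 2 * (2 * Real.pi) ^ (-w.re) * ‖Gamma w‖ := by
  rw [Gammaℂ_def, norm_mul, norm_mul, two_pi_cast,
    Complex.norm_cpow_eq_rpow_re_of_pos (by positivity), Complex.neg_re]
  norm_num

theorem Gc_ne {z : ℂ} (hz : ∀ m : ℕ, z ≠ -m) : Gammaℂ z ≠ 0 := by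
  rw [Gammaℂ_def]
  refine mul_ne_zero (mul_ne_zero two_ne_zero ?_) (Complex.Gamma_ne_zero hz)
  have h : (2 * (Real.pi : ℂ)) ≠ 0 :=
    mul_ne_zero two_ne_zero (Complex.ofReal_ne_zero.2 Real.pi_ne_zero)
  rw [Complex.cpow_def_of_ne_zero h]
  exact Complex.exp_ne_zero _

theorem ne_neg_of_re_pos {z : ℂ} (hz : 0 < z.re) (m : ℕ) : z ≠ -m := by
  intro h
  have h1 := congrArg Complex.re h
  rw [Complex.neg_re, Complex.natCast_re] at h1
  have h2 : (0 : ℝ) ≤ m := Nat.cast_nonneg m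
  linarith

theorem diff_Gc {z : ℂ} (hz : 0 < z.re) : DifferentiableAt ℂ Gammaℂ z := by
  have h : (2 * (Real.pi : ℂ)) ≠ 0 :=
    mul_ne_zero two_ne_zero (Complex.ofReal_ne_zero.2 Real.pi_ne_zero)
  have h1 : DifferentiableAt ℂ (fun s : ℂ => 2 * (2 * (Real.pi : ℂ)) ^ (-s) * Gamma s) z := by
    refine DifferentiableAt.mul (DifferentiableAt.mul (differentiableAt_const _) ?_)
      (Complex.differentiableAt_Gamma z (ne_neg_of_re_pos hz))
    exact (differentiableAt_id.neg).const_cpow (Or.inl h)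
  exact h1

theorem Gc_bound (a b : ℝ) (ha : 0 < a) : ∃ G : ℝ, 0 ≤ G ∧ ∀ w : ℂ, a ≤ w.re → w.re ≤ b →
    ‖Gammaℂ w‖ ≤ G := by
  obtain ⟨G, hG⟩ : ∃ G : ℝ, ∀ x ∈ Set.Icc a b, ‖Real.Gamma x‖ ≤ G := by
    refine isCompact_Icc.exists_bound_of_continuousOn fun x hx => ?_
    refine (Real.differentiableAt_Gamma fun m => ?_).continuousAt.continuousWithinAt
    have := hx.1
    have : (0:ℝ) ≤ m := Nat.cast_nonneg m
    linarith
  refine ⟨2 * |G|, by positivity, fun w h1 h2 => ?_⟩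
  rw [norm_Gc]
  have h3 : ‖Gamma w‖ ≤ |G| := by
    refine (norm_Gamma_le_re (by linarith)).trans ?_
    exact (Real.le_norm_self _).trans ((hG w.re ⟨h1, h2⟩).trans (le_abs_self G))
  have h4 : (2 * Real.pi) ^ (-w.re) ≤ 1 := by
    refine Real.rpow_le_one_of_one_le_of_nonpos ?_ (by linarith)
    linarith [Real.pi_gt_three]
  have h5 : 0 ≤ (2 * Real.pi) ^ (-w.re) := by positivity
  calc 2 * (2 * Real.pi) ^ (-w.re) * ‖Gamma w‖ ≤ 2 * 1 * |G| := by
        refine mul_le_mul (mul_le_mul_of_nonneg_left h4 (by norm_num)) h3 (norm_nonneg _)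
          (by norm_num)
    _ = 2 * |G| := by ring

theorem norm_Gc_conj (w : ℂ) : ‖Gammaℂ ((starRingEnd ℂ) w)‖ = ‖Gammaℂ w‖ := by
  rw [norm_Gc, norm_Gc, Complex.Gamma_conj, Complex.conj_re, RCLike.norm_conj]

theorem norm_Gc_add (z : ℂ) (hz : ∀ m : ℕ, z ≠ -m) (B : ℝ) (n : ℕ)
    (hB : ∀ j : ℕ, j < n → ‖z + j‖ ≤ B) : ‖Gammaℂ (z + n)‖ ≤ B ^ n * ‖Gammaℂ z‖ := by
  induction n with
  | zero => simp
  | succ n ih =>
    have hne : z + n ≠ 0 := by
      intro h
      exact hz n (eq_neg_of_add_eq_zero_left h)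
    have e : z + ((n + 1 : ℕ) : ℂ) = (z + n) + 1 := by push_cast; ring
    have h1 := ih (fun j hj => hB j (by omega))
    have h2 := hB n (by omega)
    have hpi : 1 ≤ 2 * Real.pi := by linarith [Real.pi_gt_three]
    rw [e, Gammaℂ_add_one hne, norm_div, norm_div, norm_mul, Complex.norm_real,
      Real.norm_of_nonneg Real.pi_pos.le, div_div, Complex.norm_two]
    have h3 : 0 ≤ ‖Gammaℂ (z + n)‖ * ‖z + n‖ := by positivity
    calc ‖Gammaℂ (z + n)‖ * ‖z + n‖ / (2 * Real.pi) ≤ ‖Gammaℂ (z + n)‖ * ‖z + n‖ :=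
          div_le_self h3 hpi
      _ ≤ (B ^ n * ‖Gammaℂ z‖) * B := mul_le_mul h1 h2 (norm_nonneg _)
          (le_trans (norm_nonneg _) h1)
      _ = B ^ (n + 1) * ‖Gammaℂ z‖ := by ring

theorem pf_GB : T_GB := by
  constructor
  · intro r b
    have hhalf : Gammaℂ (1 / 2) ≠ 0 := Gc_ne (ne_neg_of_re_pos (by norm_num))
    refine ⟨by unfold gq; rw [add_zero, div_self hhalf, one_pow], ?_⟩
    obtain ⟨G, hG0, hG⟩ := Gc_bound (1 / 4) (b + 1 / 2) (by norm_num)
    refine ⟨(G / ‖Gammaℂ (1 / 2)‖) ^ (2 * r), 0, fun s h1 h2 => ⟨?_, ?_⟩⟩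
    · have hre : 0 < ((1 / 2 : ℂ) + s).re := by
        rw [Complex.add_re]
        norm_num
        linarith
      have h3 : DifferentiableAt ℂ (fun s : ℂ => Gammaℂ (1 / 2 + s)) s :=
        DifferentiableAt.comp s (diff_Gc hre) (differentiableAt_id.const_add _)
      exact (h3.div_const _).pow _
    · rw [Real.rpow_zero, mul_one]
      unfold gq
      rw [norm_pow, norm_div]
      refine pow_le_pow_left₀ (by positivity) ?_ _
      refine div_le_div_of_nonneg_right (hG _ ?_ ?_) (norm_nonneg _)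
      · rw [Complex.add_re]
        norm_num
        linarith
      · rw [Complex.add_re]
        norm_num
        linarith
  · intro A
    refine ⟨((A : ℝ) + 1) ^ (2 * A), fun t => ?_⟩
    set z : ℂ := 1 / 2 - A + t * I with hz
    have hre : z.re = 1 / 2 - A := by
      rw [hz]
      simp
    have him : z.im = t := by
      rw [hz]
      simp
    have hzm : ∀ m : ℕ, z ≠ -m := by
      intro m h
      have h1 := congrArg Complex.re h
      rw [hre, Complex.neg_re, Complex.natCast_re] at h1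
      have h2 : (1 : ℝ) + 2 * m = 2 * A := by linarith
      have h3 : (1 : ℕ) + 2 * m = 2 * A := by exact_mod_cast h2
      omega
    refine ⟨Gc_ne hzm, ?_⟩
    have e : (1 / 2 + A - t * I : ℂ) = (starRingEnd ℂ) (z + ((2 * A : ℕ) : ℂ)) := by
      apply Complex.ext
      · rw [Complex.conj_re, Complex.add_re, hre, Complex.natCast_re]
        simp
        ring
      · rw [Complex.conj_im, Complex.add_im, him, Complex.natCast_im]
        simp
    rw [e, norm_Gc_conj]
    have hB : ∀ j : ℕ, j < 2 * A → ‖z + j‖ ≤ ((A : ℝ) + 1) * (1 + |t|) := by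
      intro j hj
      have h1 : z + j = ((1 / 2 - A + j : ℝ) : ℂ) + (t : ℂ) * I := by
        rw [hz]
        push_cast
        ring
      rw [h1]
      refine (norm_add_le _ _).trans ?_
      rw [norm_mul, Complex.norm_I, mul_one, Complex.norm_real, Complex.norm_real,
        Real.norm_eq_abs, Real.norm_eq_abs]
      have h2 : |(1 / 2 - A + j : ℝ)| ≤ (A : ℝ) + 1 := by
        have h3 : (j : ℝ) < 2 * A := by exact_mod_cast hj
        have h4 : (0 : ℝ) ≤ j := Nat.cast_nonneg j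
        rw [abs_le]
        constructor <;> linarith
      have h5 : 0 ≤ |t| := abs_nonneg t
      have h6 : (0 : ℝ) ≤ A := Nat.cast_nonneg A
      nlinarith
    refine (norm_Gc_add z hzm _ (2 * A) hB).trans (le_of_eq ?_)
    rw [mul_pow]

end Pool.Agent.H34.CV
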